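import Mathlib
import Pool.Agent.Q43.MW.Ex4

set_option autoImplicit false

/-!
# Waring's problem for almost all real exponents

The exponential sums `∑ e(α x ^ t)` over dyadic ranges have small mean squares over short intervals of exponents `t`
(first derivative test). So the Fourier integrals which compare the smoothed numbers of solutions at two scales are
small for almost all vectors of exponents, at all dyadic scales (Borel-Cantelli).
-/

namespace Pool.Agent.Results.MP_ee77ae_nt.AlmostAllExponents

open MeasureTheory Filter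

/-- **Waring's problem for almost all real exponents.**  Let `l_1, ..., l_s` be fixed positive real numbers (for
instance all equal to `1`). For almost every vector `(c_1, ..., c_s)` of real exponents `c_i > 1` with
`1 / c_1 + ... + 1 / c_s > 2` and every `δ < (1 / c_1 + ... + 1 / c_s) / 2 - 1`, ALL large real numbers `y` satisfy
`|l_1 x_1 ^ c_1 + ... + l_s x_s ^ c_s - y| < y ^ (-δ)` for some positive integers `x_i`. If all `c_i ≤ k`, the
condition holds for `s ≥ 2 k + 1`. -/
theorem result (s : ℕ) (l : Fin s → ℝ) (hl : ∀ i, 0 < l i) :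
    ∀ᵐ c : Fin s → ℝ, (∀ i, 1 < c i) → 2 < ∑ i, (c i)⁻¹ → ∀ δ : ℝ, δ < (∑ i, (c i)⁻¹) / 2 - 1 →
      ∃ Y : ℝ, ∀ y : ℝ, Y ≤ y →
        ∃ x : Fin s → ℕ, (∀ i, 1 ≤ x i) ∧ |(∑ i, l i * (x i : ℝ) ^ c i) - y| < y ^ (-δ) := by
  rcases Nat.eq_zero_or_pos s with h | h
  · subst h
    refine Eventually.of_forall fun c _ h2 => ?_
    exfalso
    simp at h2
    linarith
  · obtain ⟨n, rfl⟩ : ∃ n, s = n + 1 := ⟨s - 1, by omega⟩
    exact Pool.Agent.Q43.MW.all_exponents hl

end Pool.Agent.Results.MP_ee77ae_nt.AlmostAllExponents
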