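import Mathlib
import Pool.Agent.Q43.MW.Gl2

set_option autoImplicit false

/-!
# Sums of integer parts of powers, for almost all coefficients
-/

namespace Pool.Agent.Results.MP_ee77ae_nt.IntegerPartsCoefficients

open MeasureTheory

/-- Let `c_1, ..., c_s` be real exponents, at least `1`, with `1 / c_1 + ... + 1 / c_s > 2`. For almost all
positive reals `l_1, ..., l_s`, every large natural number is `⌊l_1 x_1 ^ c_1⌋ + ... + ⌊l_s x_s ^ c_s⌋` for
some positive integers `x_1, ..., x_s`. -/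
theorem result {s : ℕ} (c : Fin s → ℝ) (hc : ∀ i, 1 ≤ c i) (hsum : 2 < ∑ i, (c i)⁻¹) :
    ∀ᵐ l : Fin s → ℝ, (∀ i, 0 < l i) →
      ∃ N : ℕ, ∀ m : ℕ, N ≤ m → ∃ x : Fin s → ℕ, (∀ i, 1 ≤ x i) ∧ ∑ i, ⌊l i * (x i : ℝ) ^ c i⌋₊ = m := by
  rcases s with _ | n
  · simp at hsum
    linarith
  · filter_upwards [Pool.Agent.Q43.MW.all_TL hc hsum] with l hl h1
    obtain ⟨N₀, hN₀⟩ := hl h1
    refine ⟨⌈N₀⌉₊, fun m hm => ?_⟩
    obtain ⟨x, hx1, hx2⟩ := hN₀ (m : ℤ) (by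
      have : (⌈N₀⌉₊ : ℝ) ≤ m := by exact_mod_cast hm
      push_cast
      exact (Nat.le_ceil N₀).trans this)
    refine ⟨x, hx1, ?_⟩
    have h3 : ((∑ i, ⌊l i * (x i : ℝ) ^ c i⌋₊ : ℕ) : ℤ) = m := by
      rw [← hx2]
      push_cast
      refine Finset.sum_congr rfl fun i _ => ?_
      rw [← Int.natCast_floor_eq_floor]
      have := (h1 i).le
      positivity
    exact_mod_cast h3

end Pool.Agent.Results.MP_ee77ae_nt.IntegerPartsCoefficients
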